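import Pool.Agent.Helper6.EC_B.Basic

/-!
# MP_ecc237_nt, Part B, packet REPG: `I K²` as a superposition of Gaussians
-/

open MeasureTheory Filter Topology Set

noncomputable section

namespace EC237.PB.PkREPG

/-- The integrand. -/
def FF (t : ℝ) (p : ℝ × ℝ) : ℝ :=
  Real.exp (-(t ^ 2 / (4 * p.1))) *
    ((Real.exp (-(p.1 * (3 + 2 * Real.cosh p.2))) * Ib (4 * p.1 * Real.cosh (p.2 / 2))) / (2 * p.1))

theorem FF_meas (t : ℝ) : Measurable (FF t) := by
  unfold FF
  have h1 : Measurable (fun p : ℝ × ℝ => Ib (4 * p.1 * Real.cosh (p.2 / 2))) :=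
    Ib_cont.measurable.comp (by fun_prop)
  have h2 : Measurable (fun p : ℝ × ℝ => Real.exp (-(t ^ 2 / (4 * p.1)))) := by fun_prop
  have h3 : Measurable (fun p : ℝ × ℝ => Real.exp (-(p.1 * (3 + 2 * Real.cosh p.2)))) := by
    fun_prop
  have h4 : Measurable (fun p : ℝ × ℝ => 2 * p.1) := by fun_prop
  exact h2.mul ((h3.mul h1).div h4)

/-- The inner integrand. -/
def GG (t c : ℝ) (p : ℝ × ℝ) : ℝ :=
  (1 / Real.pi) * (Real.exp (-((1 + c ^ 2 - 2 * c * Real.cos p.2) * p.1 + t ^ 2 / (4 * p.1)))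
    / (2 * p.1))

theorem GG_meas (t c : ℝ) : Measurable (GG t c) := by
  unfold GG
  fun_prop

theorem w_pos {c : ℝ} (hc : 1 < c) (φ : ℝ) : 0 < 1 + c ^ 2 - 2 * c * Real.cos φ := by
  have := Real.cos_le_one φ
  nlinarith [mul_nonneg (show 0 ≤ c by linarith) (sub_nonneg.mpr this), sq_nonneg (c - 1),
    mul_pos (sub_pos.mpr hc) (sub_pos.mpr hc)]

theorem GG_phi (t c q : ℝ) :
    ∫ φ in Ioc 0 Real.pi, GG t c (q, φ) =
      Real.exp (-(t ^ 2 / (4 * q))) * ((Real.exp (-(q * (1 + c ^ 2))) * Ib (2 * q * c)) / (2 * q)) := by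
  have h1 : ∀ φ : ℝ, GG t c (q, φ) =
      (1 / Real.pi * (Real.exp (-(t ^ 2 / (4 * q))) * Real.exp (-(q * (1 + c ^ 2))) / (2 * q))) *
        Real.exp (2 * q * c * Real.cos φ) := by
    intro φ
    unfold GG
    have : Real.exp (-((1 + c ^ 2 - 2 * c * Real.cos φ) * q + t ^ 2 / (4 * q))) =
        Real.exp (-(t ^ 2 / (4 * q))) * Real.exp (-(q * (1 + c ^ 2))) *
          Real.exp (2 * q * c * Real.cos φ) := by
      rw [← Real.exp_add, ← Real.exp_add]
      congr 1
      ring
    simp only [this]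
    ring
  simp only [h1]
  rw [integral_const_mul]
  rw [← intervalIntegral.integral_of_le Real.pi_pos.le]
  unfold Ib
  ring

theorem inner (kg : G_KG) (graf : G_GRAF) {t c : ℝ} (ht : 0 < t) (hc : 1 < c) :
    IntegrableOn (fun q => Real.exp (-(t ^ 2 / (4 * q))) *
      ((Real.exp (-(q * (1 + c ^ 2))) * Ib (2 * q * c)) / (2 * q))) (Ioi 0) ∧
    ∫ q in Ioi (0:ℝ), Real.exp (-(t ^ 2 / (4 * q))) *
      ((Real.exp (-(q * (1 + c ^ 2))) * Ib (2 * q * c)) / (2 * q)) = Ib t * Kb (c * t) := by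
  have hnn : ∀ q φ : ℝ, 0 < q → 0 ≤ GG t c (q, φ) := by
    intro q φ hq
    unfold GG
    have := Real.pi_pos
    positivity
  have hkg : ∀ φ : ℝ, IntegrableOn (fun q => GG t c (q, φ)) (Ioi 0) ∧
      ∫ q in Ioi (0:ℝ), GG t c (q, φ) =
        (1 / Real.pi) * Kb (t * Real.sqrt (1 + c ^ 2 - 2 * c * Real.cos φ)) := by
    intro φ
    have hw := w_pos hc φ
    obtain ⟨h1, h2⟩ := kg (Real.sqrt (1 + c ^ 2 - 2 * c * Real.cos φ)) t (Real.sqrt_pos.mpr hw) ht
    rw [Real.sq_sqrt hw.le] at h1 h2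
    constructor
    · exact h1.const_mul _
    · unfold GG
      rw [integral_const_mul, h2, mul_comm t]
  have hint : Integrable (GG t c) ((volume.restrict (Ioi 0)).prod (volume.restrict (Ioc 0 Real.pi))) := by
    rw [integrable_prod_iff' (GG_meas t c).aestronglyMeasurable]
    constructor
    · filter_upwards with φ using (hkg φ).1
    · have h3 : (fun φ => ∫ q in Ioi (0:ℝ), ‖GG t c (q, φ)‖) =
          fun φ => (1 / Real.pi) * Kb (t * Real.sqrt (1 + c ^ 2 - 2 * c * Real.cos φ)) := by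
        funext φ
        rw [← (hkg φ).2]
        refine setIntegral_congr_fun measurableSet_Ioi fun q hq => ?_
        exact Real.norm_of_nonneg (hnn q φ hq)
      rw [h3]
      have h4 : Continuous (fun φ => (1 / Real.pi) *
          Kb (t * Real.sqrt (1 + c ^ 2 - 2 * c * Real.cos φ))) := by
        refine continuous_const.mul ?_
        refine Kb_cont.comp_continuous (by fun_prop) fun φ => ?_
        exact mul_pos ht (Real.sqrt_pos.mpr (w_pos hc φ))
      exact (h4.integrableOn_Icc (a := 0) (b := Real.pi)).mono_set Ioc_subset_Icc_self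
  constructor
  · have h5 := hint.integral_prod_left
    refine h5.congr ?_
    filter_upwards with q
    exact GG_phi t c q
  · have h6 := integral_integral_swap (f := fun q φ => GG t c (q, φ)) hint
    have h7 : ∫ q in Ioi (0:ℝ), Real.exp (-(t ^ 2 / (4 * q))) *
      ((Real.exp (-(q * (1 + c ^ 2))) * Ib (2 * q * c)) / (2 * q)) =
        ∫ q in Ioi (0:ℝ), ∫ φ in Ioc 0 Real.pi, GG t c (q, φ) := by
      refine integral_congr_ae ?_
      filter_upwards with q
      exact (GG_phi t c q).symm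
    rw [h7, h6]
    simp only [(hkg _).2]
    rw [integral_const_mul, ← intervalIntegral.integral_of_le Real.pi_pos.le]
    exact graf t c ht hc

theorem FF_q (kg : G_KG) (graf : G_GRAF) {t : ℝ} (ht : 0 < t) (u : ℝ) (_hu : 0 < u) :
    IntegrableOn (fun q => FF t (q, u)) (Ioi 0) ∧
    ∫ q in Ioi (0:ℝ), FF t (q, u) = Ib t * Kb (2 * t * Real.cosh (u / 2)) := by
  have hc : 1 < 2 * Real.cosh (u / 2) := by
    have := Real.one_le_cosh (u / 2)
    linarith
  obtain ⟨h1, h2⟩ := inner kg graf ht hc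
  have h3 : (fun q => Real.exp (-(t ^ 2 / (4 * q))) *
      ((Real.exp (-(q * (1 + (2 * Real.cosh (u / 2)) ^ 2))) * Ib (2 * q * (2 * Real.cosh (u / 2))))
        / (2 * q))) = fun q => FF t (q, u) := by
    funext q
    unfold FF
    have h4 : Real.cosh u = 2 * Real.cosh (u / 2) ^ 2 - 1 := by
      have h5 := Real.cosh_two_mul (u / 2)
      have h6 := Real.cosh_sq (u / 2)
      have h7 : 2 * (u / 2) = u := by ring
      rw [h7] at h5
      linarith
    simp only [h4]
    ring_nf
  rw [h3] at h1 h2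
  refine ⟨h1, ?_⟩
  rw [h2]
  ring_nf

/-- Packet REPG. -/
theorem thm (kg : G_KG) (graf : G_GRAF) (ksq : G_KSQ) : G_REPG := by
  intro t ht
  obtain ⟨k1, k2⟩ := ksq t ht
  have hnn : ∀ q u : ℝ, 0 < q → 0 ≤ FF t (q, u) := by
    intro q u hq
    unfold FF
    have := Ib_pos (4 * q * Real.cosh (u / 2))
    positivity
  have hint : Integrable (FF t) ((volume.restrict (Ioi 0)).prod (volume.restrict (Ioi 0))) := by
    rw [integrable_prod_iff' (FF_meas t).aestronglyMeasurable]
    constructor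
    · filter_upwards [self_mem_ae_restrict measurableSet_Ioi] with u hu
      exact (FF_q kg graf ht u hu).1
    · refine (k1.const_mul (Ib t)).congr ?_
      filter_upwards [self_mem_ae_restrict measurableSet_Ioi] with u hu
      rw [← (FF_q kg graf ht u hu).2]
      refine setIntegral_congr_fun measurableSet_Ioi fun q hq => ?_
      exact (Real.norm_of_nonneg (hnn q u hq)).symm
  have hW : ∀ q : ℝ, ∫ u in Ioi (0:ℝ), FF t (q, u) =
      Real.exp (-(t ^ 2 / (4 * q))) * (Wf q / (2 * q)) := by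
    intro q
    unfold FF Wf
    simp only
    rw [integral_const_mul, integral_div]
  constructor
  · have h5 := hint.integral_prod_left
    refine h5.congr ?_
    filter_upwards with q
    exact hW q
  · have h6 := integral_integral_swap (f := fun q u => FF t (q, u)) hint
    simp only [hW] at h6
    rw [h6]
    have h7 : ∫ u in Ioi (0:ℝ), ∫ q in Ioi (0:ℝ), FF t (q, u) =
        ∫ u in Ioi (0:ℝ), Ib t * Kb (2 * t * Real.cosh (u / 2)) := by
      refine setIntegral_congr_fun measurableSet_Ioi fun u hu => ?_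
      exact (FF_q kg graf ht u hu).2
    rw [h7, integral_const_mul, k2]

end EC237.PB.PkREPG
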