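import Pool.Agent.Helper6.EC_B.Basic

/-!
# MP_ecc237_nt, Part B, packet WAS: size of the weight `W`
-/

open MeasureTheory Filter Topology Set

noncomputable section

namespace EC237.PB.PkWAS

/-- The integrand. -/
def FW (q u : ℝ) : ℝ :=
  Real.exp (-(q * (3 + 2 * Real.cosh u))) * Ib (4 * q * Real.cosh (u / 2))

theorem FW_pos (q u : ℝ) : 0 < FW q u := mul_pos (Real.exp_pos _) (Ib_pos _)

theorem FW_cont : Continuous (fun p : ℝ × ℝ => FW p.1 p.2) := by
  unfold FW
  have h1 : Continuous (fun p : ℝ × ℝ => Ib (4 * p.1 * Real.cosh (p.2 / 2))) :=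
    Ib_cont.comp (by fun_prop)
  have h2 : Continuous (fun p : ℝ × ℝ => Real.exp (-(p.1 * (3 + 2 * Real.cosh p.2)))) := by
    fun_prop
  exact h2.mul h1

theorem Wf_meas : Measurable Wf := by
  have h : StronglyMeasurable (fun q : ℝ => ∫ u in Ioi (0:ℝ), FW q u) :=
    StronglyMeasurable.integral_prod_right (f := fun q u => FW q u) FW_cont.stronglyMeasurable
  exact h.measurable

theorem cosh_half (u : ℝ) : Real.cosh u = 2 * Real.cosh (u / 2) ^ 2 - 1 := by
  have h5 := Real.cosh_two_mul (u / 2)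
  have h6 := Real.cosh_sq (u / 2)
  have h7 : 2 * (u / 2) = u := by ring
  rw [h7] at h5
  linarith

theorem expo (q u : ℝ) (hq : 0 < q) :
    -(q * (3 + 2 * Real.cosh u)) + 4 * q * Real.cosh (u / 2) ≤ -(q / 2 * (1 + Real.cosh u)) := by
  have h := cosh_half u
  have h1 := Real.one_le_cosh (u / 2)
  rw [h]
  set c := Real.cosh (u / 2)
  have h2 : 0 ≤ (3 * c - 1) * (c - 1) := mul_nonneg (by linarith) (by linarith)
  nlinarith [mul_nonneg hq.le h2]

theorem FW_le (q u : ℝ) (hq : 0 < q) : FW q u ≤ Real.exp (-(q / 2 * (1 + Real.cosh u))) := by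
  have hz : 0 < 4 * q * Real.cosh (u / 2) := by have := Real.cosh_pos (u / 2); positivity
  have h1 := Ib_le_exp (4 * q * Real.cosh (u / 2))
  rw [abs_of_pos hz] at h1
  calc FW q u ≤ Real.exp (-(q * (3 + 2 * Real.cosh u))) *
        Real.exp (4 * q * Real.cosh (u / 2)) := by unfold FW; gcongr
    _ = Real.exp (-(q * (3 + 2 * Real.cosh u)) + 4 * q * Real.cosh (u / 2)) := by
        rw [Real.exp_add]
    _ ≤ _ := Real.exp_le_exp.mpr (expo q u hq)

theorem FW_le2 (q u : ℝ) (hq : 0 < q) :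
    FW q u ≤ Real.exp (-(2 * q * Real.cosh u)) + 8 * q * Real.exp (-(q / 4 * Real.cosh u)) := by
  have hz : 0 < 4 * q * Real.cosh (u / 2) := by have := Real.cosh_pos (u / 2); positivity
  have h1 := Ib_le (4 * q * Real.cosh (u / 2))
  rw [abs_of_pos hz] at h1
  have hE := Real.exp_pos (-(q * (3 + 2 * Real.cosh u)))
  have hcu := Real.one_le_cosh u
  have h2 : FW q u ≤ Real.exp (-(q * (3 + 2 * Real.cosh u))) +
      (4 * q * Real.cosh (u / 2)) ^ 2 / 4 *
        Real.exp (-(q * (3 + 2 * Real.cosh u)) + 4 * q * Real.cosh (u / 2)) := by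
    rw [Real.exp_add]
    unfold FW
    calc Real.exp (-(q * (3 + 2 * Real.cosh u))) * Ib (4 * q * Real.cosh (u / 2))
        ≤ Real.exp (-(q * (3 + 2 * Real.cosh u))) * (1 + (4 * q * Real.cosh (u / 2)) ^ 2 / 4 *
          Real.exp (4 * q * Real.cosh (u / 2))) := by gcongr
      _ = _ := by ring
  have h3 : Real.exp (-(q * (3 + 2 * Real.cosh u))) ≤ Real.exp (-(2 * q * Real.cosh u)) := by
    apply Real.exp_le_exp.mpr
    nlinarith
  have h4 : (4 * q * Real.cosh (u / 2)) ^ 2 / 4 = 2 * q * (q * (1 + Real.cosh u)) := by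
    rw [cosh_half u]; ring
  set x := q * (1 + Real.cosh u) with hx
  have hx0 : 0 < x := by positivity
  have h5 : Real.exp (-(q * (3 + 2 * Real.cosh u)) + 4 * q * Real.cosh (u / 2)) ≤
      Real.exp (-(x / 4)) * Real.exp (-(x / 4)) := by
    rw [← Real.exp_add]
    apply Real.exp_le_exp.mpr
    have := expo q u hq
    linarith
  have h6 : x * Real.exp (-(x / 4)) ≤ 4 := by
    have h7 := Real.add_one_le_exp (x / 4)
    have h8 : Real.exp (x / 4) * Real.exp (-(x / 4)) = 1 := by rw [← Real.exp_add]; simp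
    have h9 := Real.exp_pos (-(x / 4))
    nlinarith [mul_le_mul_of_nonneg_right (show x / 4 ≤ Real.exp (x / 4) by linarith) h9.le]
  have h10 : Real.exp (-(x / 4)) ≤ Real.exp (-(q / 4 * Real.cosh u)) := by
    apply Real.exp_le_exp.mpr
    rw [hx]
    nlinarith
  calc FW q u ≤ _ := h2
    _ ≤ Real.exp (-(2 * q * Real.cosh u)) +
        2 * q * x * (Real.exp (-(x / 4)) * Real.exp (-(x / 4))) := by
        rw [h4]; gcongr
    _ = Real.exp (-(2 * q * Real.cosh u)) +
        2 * q * (x * Real.exp (-(x / 4))) * Real.exp (-(x / 4)) := by ring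
    _ ≤ Real.exp (-(2 * q * Real.cosh u)) + 2 * q * 4 * Real.exp (-(q / 4 * Real.cosh u)) := by
        gcongr
    _ = _ := by ring

theorem FW_ge (q u : ℝ) : Real.exp (-(3 * q)) * Real.exp (-(2 * q * Real.cosh u)) ≤ FW q u := by
  rw [← Real.exp_add]
  unfold FW
  have h1 := one_le_Ib (4 * q * Real.cosh (u / 2))
  have h2 : -(3 * q) + -(2 * q * Real.cosh u) = -(q * (3 + 2 * Real.cosh u)) := by ring
  rw [h2]
  exact le_mul_of_one_le_right (Real.exp_pos _).le h1

theorem FW_int (q : ℝ) (hq : 0 < q) : IntegrableOn (fun u => FW q u) (Ioi 0) := by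
  have h1 := (Kb_int (show 0 < q / 2 by linarith))
  refine Integrable.mono' h1 ?_ ?_
  · exact (FW_cont.comp (continuous_const.prodMk continuous_id)).aestronglyMeasurable
  · filter_upwards with u
    rw [Real.norm_of_nonneg (FW_pos q u).le]
    refine (FW_le q u hq).trans (Real.exp_le_exp.mpr ?_)
    nlinarith

theorem Wf_up (q : ℝ) (hq : 0 < q) : Wf q ≤ Kb (2 * q) + 8 * q * Kb (q / 4) := by
  have h1 := Kb_int (show 0 < 2 * q by linarith)
  have h2 := (Kb_int (show 0 < q / 4 by linarith)).const_mul (8 * q)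
  have h3 : Wf q ≤ ∫ u in Ioi (0:ℝ), (Real.exp (-(2 * q * Real.cosh u)) +
      8 * q * Real.exp (-(q / 4 * Real.cosh u))) :=
    integral_mono (FW_int q hq) (h1.add h2) fun u => FW_le2 q u hq
  rw [integral_add h1 h2, integral_const_mul] at h3
  exact h3

theorem Wf_low (q : ℝ) (hq : 0 < q) : Kb (2 * q) - 3 * q * Kb (2 * q) ≤ Wf q := by
  have h1 := (Kb_int (show 0 < 2 * q by linarith)).const_mul (Real.exp (-(3 * q)))
  have h3 : ∫ u in Ioi (0:ℝ), Real.exp (-(3 * q)) * Real.exp (-(2 * q * Real.cosh u)) ≤ Wf q :=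
    integral_mono h1 (FW_int q hq) fun u => FW_ge q u
  rw [integral_const_mul] at h3
  have h4 : 1 - 3 * q ≤ Real.exp (-(3 * q)) := by
    have := Real.add_one_le_exp (-(3 * q))
    linarith
  have h5 := Kb_nonneg (2 * q)
  have h6 : (∫ u in Ioi (0:ℝ), Real.exp (-(2 * q * Real.cosh u))) = Kb (2 * q) := rfl
  rw [h6] at h3
  nlinarith

theorem Wf_big (q : ℝ) (hq : 1 ≤ q) : Wf q ≤ 2 * Kb (1 / 2) / q := by
  have hq0 : 0 < q := by linarith
  have h1 := (Kb_int (show 0 < q / 2 by linarith)).const_mul (Real.exp (-(q / 2)))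
  have h3 : Wf q ≤ ∫ u in Ioi (0:ℝ), Real.exp (-(q / 2)) * Real.exp (-(q / 2 * Real.cosh u)) := by
    refine integral_mono (FW_int q hq0) h1 fun u => ?_
    simp only
    rw [← Real.exp_add]
    refine (FW_le q u hq0).trans (Real.exp_le_exp.mpr ?_)
    linarith
  rw [integral_const_mul] at h3
  have h6 : (∫ u in Ioi (0:ℝ), Real.exp (-(q / 2 * Real.cosh u))) = Kb (q / 2) := rfl
  rw [h6] at h3
  have h7 : Kb (q / 2) ≤ Kb (1 / 2) :=
    Kb_anti (show (1/2:ℝ) ∈ Ioi (0:ℝ) by norm_num) (show q / 2 ∈ Ioi (0:ℝ) by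
      simp only [mem_Ioi]; linarith) (by linarith)
  have h8 : Real.exp (-(q / 2)) ≤ 2 / q := by
    have h9 := Real.add_one_le_exp (q / 2)
    rw [Real.exp_neg, inv_le_comm₀ (Real.exp_pos _) (by positivity), inv_div]
    linarith
  have h10 := Kb_nonneg (q / 2)
  calc Wf q ≤ Real.exp (-(q / 2)) * Kb (q / 2) := h3
    _ ≤ 2 / q * Kb (1 / 2) := by gcongr
    _ = _ := by ring

theorem sqrt_log {q : ℝ} (hq : 0 < q) : Real.sqrt q * (-Real.log q) ≤ 2 := by
  have hs := Real.sqrt_pos.mpr hq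
  have h1 : Real.log q = 2 * Real.log (Real.sqrt q) := by
    rw [Real.log_sqrt hq.le]; ring
  have h2 := Real.log_le_sub_one_of_pos (inv_pos.mpr hs)
  rw [Real.log_inv] at h2
  rw [h1]
  have h3 : Real.sqrt q * (Real.sqrt q)⁻¹ = 1 := mul_inv_cancel₀ hs.ne'
  nlinarith

/-- Packet WAS. -/
theorem thm (kas : G_KAS) : G_WAS := by
  refine ⟨Wf_meas, fun q => ?_, ?_⟩
  · exact integral_nonneg fun u => (FW_pos q u).le
  obtain ⟨C, hC⟩ := kas
  have hC0 : 0 ≤ C := by
    have := (abs_nonneg _).trans (hC 1 one_pos le_rfl)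
    simpa using this
  have hg0 : 0 ≤ gam := by
    have := Real.one_half_lt_eulerMascheroniConstant
    linarith
  have hg1 : gam ≤ 1 := by
    have := Real.eulerMascheroniConstant_lt_two_thirds
    linarith
  -- the bound for `q Kb(q/4)`
  have hK4 : ∀ q, 0 < q → q ≤ 1 → q * Kb (q / 4) ≤ (2 + Real.log 8 + C) * Real.sqrt q := by
    intro q h0 h1
    have h2 := (abs_le.mp (hC (q / 4) (by linarith) (by linarith))).2
    have h3 : Ld (q / 4) = -Real.log q + Real.log 8 - gam := by
      unfold Ld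
      have : q / 4 / 2 = q / 8 := by ring
      rw [this, Real.log_div h0.ne' (by norm_num)]
      ring
    rw [h3] at h2
    have h4 : Real.sqrt (q / 4) ≤ 1 := by
      rw [Real.sqrt_le_one]; linarith
    have h5 : Kb (q / 4) ≤ -Real.log q + Real.log 8 + C := by nlinarith
    have hs := Real.sqrt_nonneg q
    have hs1 : Real.sqrt q ≤ 1 := Real.sqrt_le_one.mpr h1
    have h6 : Real.sqrt q * Real.sqrt q = q := Real.mul_self_sqrt h0.le
    have h7 := sqrt_log h0
    have h8 : 0 < Real.log 8 := Real.log_pos (by norm_num)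
    calc q * Kb (q / 4) ≤ q * (-Real.log q + Real.log 8 + C) := by gcongr
      _ = Real.sqrt q * (Real.sqrt q * (-Real.log q) + Real.sqrt q * (Real.log 8 + C)) := by
          calc q * (-Real.log q + Real.log 8 + C)
              = (Real.sqrt q * Real.sqrt q) * (-Real.log q + Real.log 8 + C) := by rw [h6]
            _ = _ := by ring
      _ ≤ Real.sqrt q * (2 + 1 * (Real.log 8 + C)) := by gcongr
      _ = _ := by ring
  -- the bound for `Kb(2q)`
  have hK2 : ∀ q, 0 < q → q ≤ 1 → |Kb (2 * q) + Real.log q + gam| ≤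
      (2 * C + 2 * (Kb 1 + 2)) * Real.sqrt q := by
    intro q h0 h1
    have hs := Real.sqrt_nonneg q
    have hk1 := Kb_nonneg 1
    rcases le_or_gt q (1 / 2) with h2 | h2
    · have h3 := hC (2 * q) (by linarith) (by linarith)
      have h4 : Ld (2 * q) = -Real.log q - gam := by
        unfold Ld
        have : 2 * q / 2 = q := by ring
        rw [this]
      rw [h4] at h3
      have h5 : Real.sqrt (2 * q) ≤ 2 * Real.sqrt q := by
        rw [show (2:ℝ) * Real.sqrt q = Real.sqrt (4 * q) by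
          rw [Real.sqrt_mul (by norm_num), show (4:ℝ) = 2 ^ 2 by norm_num,
            Real.sqrt_sq (by norm_num)]]
        exact Real.sqrt_le_sqrt (by linarith)
      calc |Kb (2 * q) + Real.log q + gam| = |Kb (2 * q) - (-Real.log q - gam)| := by
            congr 1; ring
        _ ≤ C * Real.sqrt (2 * q) := h3
        _ ≤ C * (2 * Real.sqrt q) := by gcongr
        _ ≤ _ := by nlinarith
    · have h3 : Kb (2 * q) ≤ Kb 1 :=
        Kb_anti (show (1:ℝ) ∈ Ioi (0:ℝ) by norm_num) (show 2 * q ∈ Ioi (0:ℝ) by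
          simp only [mem_Ioi]; linarith) (by linarith)
      have h4 := Kb_nonneg (2 * q)
      have h5 : Real.log q ≤ 0 := Real.log_nonpos h0.le h1
      have h6 : -1 ≤ Real.log q := by
        have h7 := Real.one_sub_inv_le_log_of_pos h0
        have h8 : q⁻¹ ≤ 2 := by
          rw [inv_le_comm₀ h0 (by norm_num)]
          linarith
        linarith
      have h9 : 1 / 2 ≤ Real.sqrt q := by
        apply Real.le_sqrt_of_sq_le
        linarith
      have h10 : |Kb (2 * q) + Real.log q + gam| ≤ Kb 1 + 2 := by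
        rw [abs_le]
        constructor <;> linarith
      nlinarith [mul_nonneg hC0 hs]
  set C8 := 2 + Real.log 8 + C with hC8
  set C2 := 2 * C + 2 * (Kb 1 + 2) with hC2
  have hC8' : 0 ≤ C8 := by
    have h8 : 0 < Real.log 8 := Real.log_pos (by norm_num)
    rw [hC8]; linarith
  refine ⟨C2 + 8 * C8 + 2 * Kb (1 / 2), fun q h0 h1 => ?_, fun q h1 => ?_⟩
  · have hs := Real.sqrt_nonneg q
    have ha := abs_le.mp (hK2 q h0 h1)
    have hb := hK4 q h0 h1
    have hu := Wf_up q h0
    have hl := Wf_low q h0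
    have hm : Kb (2 * q) ≤ Kb (q / 4) :=
      Kb_anti (show q / 4 ∈ Ioi (0:ℝ) by simp only [mem_Ioi]; linarith)
        (show 2 * q ∈ Ioi (0:ℝ) by simp only [mem_Ioi]; linarith) (by linarith)
    have hm2 : q * Kb (2 * q) ≤ C8 * Real.sqrt q := by
      calc q * Kb (2 * q) ≤ q * Kb (q / 4) := by gcongr
        _ ≤ _ := hb
    have hk := mul_nonneg (Kb_nonneg (1 / 2)) hs
    have hk2 := mul_nonneg hC8' hs
    rw [abs_le]
    constructor
    · nlinarith
    · nlinarith
  · have h2 := Wf_big q h1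
    have hq0 : 0 < q := by linarith
    refine h2.trans ?_
    have hk1 := Kb_nonneg 1
    gcongr
    have : 0 ≤ C2 := by rw [hC2]; positivity
    linarith

end EC237.PB.PkWAS
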