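import Pool.Agent.Helper6.EC_B.Main
import Pool.Agent.Helper6.EC_B.REPG
import Pool.Agent.Helper6.EC_B.WAS
import Pool.Agent.Helper85.EC_B.T1
import Pool.Agent.Helper32.EC_B.T2
import Pool.Agent.Helper22.EC_B.T3
import Pool.Agent.Helper32.EC_B.D1
import Pool.Agent.Helper40.EC_B.D2
import Pool.Agent.Helper36.EC_B.D3
import Pool.Agent.Helper56.EC_B.KG
import Pool.Agent.Helper37.EC_B.GL1
import Pool.Agent.Helper29.EC_B.GL2
import Pool.Agent.Helper63.EC_B.GRAF
import Pool.Agent.Helper33.EC_B.KSQ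
import Pool.Agent.Helper45.EC_B.LAPI
import Pool.Agent.Helper77.EC_B.CV4
import Pool.Agent.Helper67.EC_B.KAS
import Pool.Agent.Helper9.EC_B.CVB
import Pool.Agent.Helper70.EC_B.CVG
import Pool.Agent.Helper93.EC_B.REPR
import Pool.Agent.Helper3.EC_B.Repb
import Pool.Agent.Helper63.EC_B.NAS
import Pool.Agent.Helper14.EC_B.GM
import Pool.Agent.Helper99.EC_B.CST

/-!
# MP_ecc237_nt, Part B: the statement (S2)
-/

noncomputable section

namespace EC237.PB

theorem was : G_WAS := PkWAS.thm PkKAS.thm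

theorem graf : G_GRAF := PkGRAF.thm PkGL1.thm PkGL2.thm

theorem repg : G_REPG := PkREPG.thm PkKG.thm graf PkKSQ.thm

theorem repr : G_REPR := PkREPR.thm PkLAPI.thm PkCV4.thm

theorem repb : G_REPB := PkREPB.thm repr was

theorem nas : G_NAS := PkNAS.thm was

theorem gmg : G_GMG := PkGMG.thm repg was nas

theorem gmb : G_GMB := PkGMB.thm repb was nas

theorem d3 : G_D3 := PkD3.thm PkD1.thm PkD2.thm

theorem cst : G_CST := PkCST.thm PkKAS.thm nas gmg PkD1.thm d3

/-- (S2): `J_x = J_24 + ζ(5)/20`. -/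
theorem s2 : S2 :=
  s2_of PkT1.thm PkT2.thm PkT3.thm d3 nas gmg gmb cst PkCVB.thm PkCVG.thm

end EC237.PB
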