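import Pool.Agent.Helper6.EC_B.Goals

/-!
# MP_ecc237_nt, Part B: basic facts
-/

open MeasureTheory Filter Topology Set

noncomputable section

namespace EC237.PB

/-! ### The function `Ib` -/

theorem Ib_cont : Continuous Ib := by
  unfold Ib
  refine continuous_const.mul ?_
  refine intervalIntegral.continuous_parametric_intervalIntegral_of_continuous' ?_ _ _
  fun_prop

theorem one_le_Ib (t : ℝ) : 1 ≤ Ib t := by
  unfold Ib
  have h1 : (∫ θ in (0:ℝ)..Real.pi, (1 + t * Real.cos θ)) ≤
      ∫ θ in (0:ℝ)..Real.pi, Real.exp (t * Real.cos θ) := by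
    apply intervalIntegral.integral_mono_on Real.pi_pos.le
    · exact Continuous.intervalIntegrable (by fun_prop) _ _
    · exact Continuous.intervalIntegrable (by fun_prop) _ _
    · intro x _
      have := Real.add_one_le_exp (t * Real.cos x)
      linarith
  have h2 : (∫ θ in (0:ℝ)..Real.pi, (1 + t * Real.cos θ)) = Real.pi := by
    rw [intervalIntegral.integral_add (by simp)
      (Continuous.intervalIntegrable (by fun_prop) _ _), intervalIntegral.integral_const_mul,
      integral_cos]
    simp
  rw [h2] at h1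
  rw [one_div, ← div_eq_inv_mul, le_div_iff₀ Real.pi_pos]
  linarith

theorem Ib_pos (t : ℝ) : 0 < Ib t := lt_of_lt_of_le one_pos (one_le_Ib t)

theorem exp_cos_le (t θ : ℝ) : Real.exp (t * Real.cos θ) ≤ Real.exp |t| := by
  apply Real.exp_le_exp.mpr
  calc t * Real.cos θ ≤ |t * Real.cos θ| := le_abs_self _
    _ = |t| * |Real.cos θ| := abs_mul _ _
    _ ≤ |t| * 1 := by gcongr; exact Real.abs_cos_le_one θ
    _ = |t| := mul_one _

theorem Ib_le_exp (t : ℝ) : Ib t ≤ Real.exp |t| := by
  unfold Ib
  have h1 : (∫ θ in (0:ℝ)..Real.pi, Real.exp (t * Real.cos θ)) ≤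
      ∫ _ in (0:ℝ)..Real.pi, Real.exp |t| := by
    apply intervalIntegral.integral_mono_on Real.pi_pos.le
    · exact Continuous.intervalIntegrable (by fun_prop) _ _
    · exact Continuous.intervalIntegrable (by fun_prop) _ _
    · intro x _
      exact exp_cos_le t x
  rw [intervalIntegral.integral_const, smul_eq_mul, sub_zero] at h1
  rw [one_div, ← div_eq_inv_mul, div_le_iff₀ Real.pi_pos]
  linarith

theorem aux_mono (y : ℝ) (hy : 0 ≤ y) : 1 ≤ (1 + y) * Real.exp (-y) + y ^ 2 / 2 := by
  have hd : ∀ x : ℝ, HasDerivAt (fun y : ℝ => (1 + y) * Real.exp (-y) + y ^ 2 / 2)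
      (x * (1 - Real.exp (-x))) x := by
    intro x
    have h1 : HasDerivAt (fun y : ℝ => 1 + y) 1 x := by
      simpa using (hasDerivAt_id x).const_add 1
    have h2 : HasDerivAt (fun y : ℝ => Real.exp (-y)) (Real.exp (-x) * (-1)) x :=
      ((hasDerivAt_id x).neg).exp
    have h3 : HasDerivAt (fun y : ℝ => y ^ 2 / 2) (2 * x / 2) x := by
      have := (hasDerivAt_pow 2 x).div_const 2
      simpa using this
    have h4 := (h1.mul h2).add h3
    refine h4.congr_deriv ?_
    ring
  have hm : MonotoneOn (fun y : ℝ => (1 + y) * Real.exp (-y) + y ^ 2 / 2) (Ici 0) := by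
    apply monotoneOn_of_deriv_nonneg (convex_Ici 0)
    · exact fun x _ => (hd x).continuousAt.continuousWithinAt
    · exact fun x _ => (hd x).differentiableAt.differentiableWithinAt
    · intro x hx
      rw [(hd x).deriv]
      rw [interior_Ici] at hx
      have hx' : (0:ℝ) < x := hx
      have : Real.exp (-x) ≤ 1 := Real.exp_le_one_iff.mpr (by linarith)
      exact mul_nonneg hx'.le (by linarith)
  have h := hm (show (0:ℝ) ∈ Ici (0:ℝ) from le_refl (0:ℝ)) (show y ∈ Ici (0:ℝ) from hy) hy
  simpa using h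

theorem exp_taylor_nonneg (y : ℝ) (hy : 0 ≤ y) :
    Real.exp y - 1 - y ≤ y ^ 2 / 2 * Real.exp y := by
  have h := aux_mono y hy
  have h1 : Real.exp (-y) * Real.exp y = 1 := by rw [← Real.exp_add]; simp
  have h2 := Real.exp_pos y
  have h3 : Real.exp y * 1 ≤ Real.exp y * ((1 + y) * Real.exp (-y) + y ^ 2 / 2) :=
    mul_le_mul_of_nonneg_left h h2.le
  have h4 : Real.exp y * ((1 + y) * Real.exp (-y) + y ^ 2 / 2)
      = (1 + y) * (Real.exp (-y) * Real.exp y) + y ^ 2 / 2 * Real.exp y := by ring
  rw [h4, h1] at h3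
  linarith

/-- `exp x ≤ 1 + x + x²/2 exp|x|`. -/
theorem exp_le_taylor (x : ℝ) : Real.exp x ≤ 1 + x + x ^ 2 / 2 * Real.exp |x| := by
  rcases le_total 0 x with hx | hx
  · have := exp_taylor_nonneg x hx
    rw [abs_of_nonneg hx]
    linarith
  · have h1 := Complex.norm_exp_sub_sum_le_exp_norm_sub_sum (x : ℂ) 2
    simp only [Finset.sum_range_succ, Finset.sum_range_zero, pow_zero, Nat.factorial_zero,
      Nat.cast_one, div_one, pow_one, Nat.factorial_one, zero_add] at h1
    have h2 : ‖Complex.exp (x:ℂ) - (1 + (x:ℂ))‖ = |Real.exp x - (1 + x)| := by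
      rw [← Complex.ofReal_exp]
      rw [← Real.norm_eq_abs, ← Complex.norm_real]
      push_cast
      rfl
    rw [h2, Complex.norm_real, Real.norm_eq_abs] at h1
    have h3 := exp_taylor_nonneg |x| (abs_nonneg x)
    rw [sq_abs] at h3
    have h4 := le_abs_self (Real.exp x - (1 + x))
    linarith

/-- `Ib t ≤ 1 + t²/4 exp|t|`. -/
theorem Ib_le (t : ℝ) : Ib t ≤ 1 + t ^ 2 / 4 * Real.exp |t| := by
  unfold Ib
  have h1 : (∫ θ in (0:ℝ)..Real.pi, Real.exp (t * Real.cos θ)) ≤
      ∫ θ in (0:ℝ)..Real.pi, ((1 + t * Real.cos θ) + t ^ 2 / 2 * Real.exp |t| * Real.cos θ ^ 2) := by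
    apply intervalIntegral.integral_mono_on Real.pi_pos.le
    · exact Continuous.intervalIntegrable (by fun_prop) _ _
    · exact Continuous.intervalIntegrable (by fun_prop) _ _
    · intro x _
      have h := exp_le_taylor (t * Real.cos x)
      have h2 : Real.exp |t * Real.cos x| ≤ Real.exp |t| := by
        apply Real.exp_le_exp.mpr
        rw [abs_mul]
        calc |t| * |Real.cos x| ≤ |t| * 1 := by gcongr; exact Real.abs_cos_le_one x
          _ = |t| := mul_one _
      have h3 : (t * Real.cos x) ^ 2 / 2 * Real.exp |t * Real.cos x| ≤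
          (t * Real.cos x) ^ 2 / 2 * Real.exp |t| := by
        apply mul_le_mul_of_nonneg_left h2
        positivity
      calc Real.exp (t * Real.cos x) ≤ 1 + t * Real.cos x + (t * Real.cos x) ^ 2 / 2 * Real.exp |t| := by
            linarith
        _ = _ := by ring
  have h2 : (∫ θ in (0:ℝ)..Real.pi,
      ((1 + t * Real.cos θ) + t ^ 2 / 2 * Real.exp |t| * Real.cos θ ^ 2))
      = Real.pi + t ^ 2 / 2 * Real.exp |t| * (Real.pi / 2) := by
    rw [intervalIntegral.integral_add (Continuous.intervalIntegrable (by fun_prop) _ _)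
      (Continuous.intervalIntegrable (by fun_prop) _ _),
      intervalIntegral.integral_add (by simp)
      (Continuous.intervalIntegrable (by fun_prop) _ _), intervalIntegral.integral_const_mul,
      intervalIntegral.integral_const_mul, integral_cos, integral_cos_sq]
    simp
  rw [h2] at h1
  have hpi := Real.pi_pos
  calc 1 / Real.pi * ∫ θ in (0:ℝ)..Real.pi, Real.exp (t * Real.cos θ)
      ≤ 1 / Real.pi * (Real.pi + t ^ 2 / 2 * Real.exp |t| * (Real.pi / 2)) := by gcongr
    _ = 1 + t ^ 2 / 4 * Real.exp |t| := by field_simp; ring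

/-! ### The function `Kb` -/

theorem cosh_ge_exp (u : ℝ) : Real.exp u / 2 ≤ Real.cosh u := by
  rw [Real.cosh_eq]
  have := Real.exp_pos (-u)
  linarith

theorem cosh_ge (u : ℝ) : (1 + u) / 2 ≤ Real.cosh u := by
  have h1 := cosh_ge_exp u
  have h2 := Real.add_one_le_exp u
  linarith

theorem Kb_int {t : ℝ} (ht : 0 < t) :
    IntegrableOn (fun u : ℝ => Real.exp (-(t * Real.cosh u))) (Ioi 0) := by
  have h1 : IntegrableOn (fun u : ℝ => Real.exp (-(t / 2) * u)) (Ioi 0) :=
    integrableOn_exp_mul_Ioi (by linarith) 0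
  refine Integrable.mono' h1 (by fun_prop) ?_
  filter_upwards with u
  rw [Real.norm_eq_abs, abs_of_pos (Real.exp_pos _)]
  apply Real.exp_le_exp.mpr
  nlinarith [cosh_ge u]

theorem Kb_int_cosh {t : ℝ} (ht : 0 < t) :
    IntegrableOn (fun u : ℝ => Real.cosh u * Real.exp (-(t * Real.cosh u))) (Ioi 0) := by
  have h1 := (Kb_int (half_pos ht)).const_mul (2 / t)
  refine Integrable.mono' h1 (by fun_prop) ?_
  filter_upwards with u
  have hc := Real.cosh_pos u
  rw [Real.norm_eq_abs, abs_of_pos (mul_pos hc (Real.exp_pos _))]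
  have h2 : t / 2 * Real.cosh u ≤ Real.exp (t / 2 * Real.cosh u) := by
    have := Real.add_one_le_exp (t / 2 * Real.cosh u)
    linarith
  have h3 : Real.exp (-(t * Real.cosh u)) =
      Real.exp (-(t / 2 * Real.cosh u)) * Real.exp (-(t / 2 * Real.cosh u)) := by
    rw [← Real.exp_add]; congr 1; ring
  have h4 : Real.exp (t / 2 * Real.cosh u) * Real.exp (-(t / 2 * Real.cosh u)) = 1 := by
    rw [← Real.exp_add]; simp
  have h5 := Real.exp_pos (-(t / 2 * Real.cosh u))
  rw [h3]
  have h6 : t / 2 * Real.cosh u * Real.exp (-(t / 2 * Real.cosh u)) ≤ 1 := by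
    rw [← h4]; gcongr
  calc Real.cosh u * (Real.exp (-(t / 2 * Real.cosh u)) * Real.exp (-(t / 2 * Real.cosh u)))
      = (2 / t) * (t / 2 * Real.cosh u * Real.exp (-(t / 2 * Real.cosh u))) *
          Real.exp (-(t / 2 * Real.cosh u)) := by field_simp
    _ ≤ (2 / t) * 1 * Real.exp (-(t / 2 * Real.cosh u)) := by gcongr
    _ = _ := by ring

theorem Kb_nonneg (t : ℝ) : 0 ≤ Kb t := by
  unfold Kb
  exact integral_nonneg fun u => (Real.exp_pos _).le

theorem Kb_pos {t : ℝ} (ht : 0 < t) : 0 < Kb t := by
  unfold Kb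
  rw [integral_pos_iff_support_of_nonneg (fun u => (Real.exp_pos _).le) (Kb_int ht)]
  have h : Function.support (fun u : ℝ => Real.exp (-(t * Real.cosh u))) = univ := by
    ext u
    simp
  rw [h]
  simp

theorem Kb_anti : AntitoneOn Kb (Ioi 0) := by
  intro s hs t ht hst
  have hs' : (0:ℝ) < s := hs
  unfold Kb
  refine integral_mono (Kb_int ht) (Kb_int hs') fun u => ?_
  apply Real.exp_le_exp.mpr
  have := Real.cosh_pos u
  nlinarith

theorem Kb_cont : ContinuousOn Kb (Ioi 0) := by
  intro t ht
  have ht' : (0:ℝ) < t := ht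
  apply ContinuousAt.continuousWithinAt
  unfold Kb
  refine continuousAt_of_dominated (bound := fun u => Real.exp (-(t / 2 * Real.cosh u))) ?_ ?_
    (Kb_int (half_pos ht')) ?_
  · filter_upwards with s
    fun_prop
  · have : Ioi (t / 2) ∈ 𝓝 t := Ioi_mem_nhds (by linarith)
    filter_upwards [this] with s hs
    filter_upwards with u
    have hs' : t / 2 < s := hs
    rw [Real.norm_eq_abs, abs_of_pos (Real.exp_pos _)]
    apply Real.exp_le_exp.mpr
    have := Real.cosh_pos u
    nlinarith
  · filter_upwards with u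
    fun_prop

/-! ### The measure `rho` -/

theorem rho_map_meas : Measurable (fun s : ℝ => (Real.log s + gam) / 2) := by
  fun_prop

theorem rho_dens_meas : Measurable (fun s : ℝ => ENNReal.ofReal (Real.exp (-s))) := by
  fun_prop

/-- The integral with respect to `rho`. -/
theorem rho_integral (F : ℝ → ℝ) (hF : Measurable F) :
    ∫ a, F a ∂rho = ∫ s in Ioi (0:ℝ), Real.exp (-s) * F ((Real.log s + gam) / 2) := by
  unfold rho
  rw [integral_map rho_map_meas.aemeasurable hF.aestronglyMeasurable]
  rw [integral_withDensity_eq_integral_toReal_smul rho_dens_meas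
    (by filter_upwards with s using ENNReal.ofReal_lt_top)]
  refine integral_congr_ae ?_
  filter_upwards with s
  rw [ENNReal.toReal_ofReal (Real.exp_pos _).le, smul_eq_mul]

/-- Integrability with respect to `rho`. -/
theorem rho_integrable_iff (F : ℝ → ℝ) (hF : Measurable F) :
    Integrable F rho ↔
      IntegrableOn (fun s => Real.exp (-s) * F ((Real.log s + gam) / 2)) (Ioi (0:ℝ)) := by
  unfold rho
  rw [integrable_map_measure hF.aestronglyMeasurable rho_map_meas.aemeasurable]
  rw [integrable_withDensity_iff rho_dens_meas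
    (by filter_upwards with s using ENNReal.ofReal_lt_top)]
  unfold IntegrableOn
  refine integrable_congr ?_
  filter_upwards with s
  rw [ENNReal.toReal_ofReal (Real.exp_pos _).le]
  simp only [Function.comp]
  ring

/-- The lower integral with respect to `rho`. -/
theorem rho_lintegral (F : ℝ → ENNReal) (hF : Measurable F) :
    ∫⁻ a, F a ∂rho = ∫⁻ s in Ioi (0:ℝ), ENNReal.ofReal (Real.exp (-s)) *
      F ((Real.log s + gam) / 2) := by
  unfold rho
  rw [lintegral_map hF rho_map_meas]
  have h := lintegral_withDensity_eq_lintegral_mul (volume.restrict (Ioi (0:ℝ))) rho_dens_meas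
    (hF.comp rho_map_meas)
  exact h

instance rho_prob : IsProbabilityMeasure rho := by
  constructor
  have h := rho_lintegral (fun _ => 1) measurable_const
  simp only [lintegral_const, one_mul, mul_one] at h
  rw [h]
  rw [← ofReal_integral_eq_lintegral_ofReal]
  · rw [integral_exp_neg_Ioi_zero]
    simp
  · exact (integrableOn_exp_neg_Ioi 0)
  · filter_upwards with s using (Real.exp_pos _).le

end EC237.PB
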