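import Pool.Agent.Helper23.EC.Interface

/-!
# MP_ecc237_nt, Part B (the statement (S2)): definitions

`Ib`, `Kb` (Bessel functions), `rr`, `bb`, `Ld`, `zeta5`, `IsJ24`, `IsJx`, `S2` are in
`Pool/Agent/Helper23/EC/Interface.lean` (namespace `EC237`).

Idea of Part B. With `W(q) = ∫_0^∞ exp(-q(3+2cosh u)) I(4q cosh(u/2)) du` one has
`I(t) K(t)² = ∫_0^∞ exp(-t²/(4q)) W(q) dq/(2q)` and `r(x) = ∫_0^∞ exp(-x² q) W(q) dq`, hence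
`b(x) = ∫_0^∞ (1 - exp(-x² q)) W(q) dq/(2q)`. Put `N(y) = ∫_{q > exp(-2y-γ)} W(q) dq/(2q)` and let `ρ` be
the law of `a = (log E + γ)/2`, `E` an exponential random variable. Then `b(e^y) = ∫ N(y-a) dρ(a)`,
`(I K²)(2 e^{-γ-y}) = ∫ N(y+a) dρ(a)` and `N(y) = y² - m₂ + O(e^{-y/8})`, `m_k = ∫ a^k dρ`. Shifting `y`
by `a + a'` gives
`∫_{-∞}^Y b(e^y)² dy - ∫_{-∞}^Y (I K²)(2e^{-γ-y})² dy = -∬ ∫_Y^{Y+a+a'} N(y-a) N(y-a') dy dρ dρ`, which tends to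
`-(m₅ - 10 m₂ m₃)/15 = ζ(5)/20`.
-/

open MeasureTheory Filter Topology Set

noncomputable section

namespace EC237.PB

/-- Euler's constant. -/
abbrev gam : ℝ := Real.eulerMascheroniConstant

/-- The weight `W`. -/
def Wf (q : ℝ) : ℝ :=
  ∫ u in Ioi (0:ℝ), Real.exp (-(q * (3 + 2 * Real.cosh u))) * Ib (4 * q * Real.cosh (u / 2))

/-- `N(y) = ∫_{q > exp(-2y-γ)} W(q) dq/(2q)`. -/
def Nf (y : ℝ) : ℝ := ∫ q in Ioi (Real.exp (-(2 * y) - gam)), Wf q / (2 * q)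

/-- The point `t` with `L(t) = y`. -/
def tt (y : ℝ) : ℝ := 2 * Real.exp (-gam - y)

/-- The law of `a = (log E + γ)/2`, `E` exponential. -/
def rho : Measure ℝ :=
  Measure.map (fun s : ℝ => (Real.log s + gam) / 2)
    ((volume.restrict (Ioi (0:ℝ))).withDensity (fun s => ENNReal.ofReal (Real.exp (-s))))

/-- Hypotheses on a function `N` and a probability measure `ρ`. -/
structure Hyp (ρ : Measure ℝ) (N : ℝ → ℝ) : Prop where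
  prob : IsProbabilityMeasure ρ
  exp : Integrable (fun a => Real.exp (|a| / 2)) ρ
  mean : ∫ a, a ∂ρ = 0
  meas : Measurable N
  b1 : ∃ C : ℝ, ∀ z, |N z| ≤ C * Real.exp (z / 8)
  b2 : ∃ C : ℝ, ∀ z, |N z - (z ^ 2 - ∫ a, a ^ 2 ∂ρ)| ≤ C * Real.exp (-(z / 8))

/-- `∫_Y^{Y+a+a'} N(y-a) N(y-a') dy`, `p = (a,a')`. -/
def FY (N : ℝ → ℝ) (Y : ℝ) (p : ℝ × ℝ) : ℝ :=
  ∫ y in Y..(Y + p.1 + p.2), N (y - p.1) * N (y - p.2)

end EC237.PB
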