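import Pool.Agent.Helper6.EC_B.Defs

/-!
# MP_ecc237_nt, Part B: goals
-/

open MeasureTheory Filter Topology Set

noncomputable section

namespace EC237.PB

/-! ### The abstract comparison -/

/-- Fubini and translation. -/
def G_T1 : Prop := ∀ (ρ : Measure ℝ) (N : ℝ → ℝ), Hyp ρ N →
  (∀ Y, Integrable (FY N Y) (ρ.prod ρ)) ∧
  ∀ Y : ℝ, (∫ y in Iic Y, (∫ a, N (y - a) ∂ρ) ^ 2) - (∫ y in Iic Y, (∫ a, N (y + a) ∂ρ) ^ 2)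
    = -∫ p, FY N Y p ∂(ρ.prod ρ)

/-- Replacing `N(z)` by `z² - m₂`. -/
def G_T2 : Prop := ∀ (ρ : Measure ℝ) (N : ℝ → ℝ), Hyp ρ N →
  Tendsto (fun Y => ∫ p, (FY N Y p - FY (fun z => z ^ 2 - ∫ a, a ^ 2 ∂ρ) Y p) ∂(ρ.prod ρ))
    atTop (𝓝 0)

/-- The polynomial identity. -/
def G_T3 : Prop := ∀ (ρ : Measure ℝ), IsProbabilityMeasure ρ →
  Integrable (fun a => Real.exp (|a| / 2)) ρ → ∫ a, a ∂ρ = 0 → ∀ Y : ℝ,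
  Integrable (FY (fun z => z ^ 2 - ∫ a, a ^ 2 ∂ρ) Y) (ρ.prod ρ) ∧
  ∫ p, FY (fun z => z ^ 2 - ∫ a, a ^ 2 ∂ρ) Y p ∂(ρ.prod ρ)
    = ((∫ a, a ^ 5 ∂ρ) - 10 * (∫ a, a ^ 2 ∂ρ) * ∫ a, a ^ 3 ∂ρ) / 15

/-! ### The measure `rho` -/

/-- Exponential moments. -/
def G_D1 : Prop := ∀ z : ℝ, |z| < 1 → Integrable (fun a => Real.exp (2 * z * a)) rho ∧
  ∫ a, Real.exp (2 * z * a) ∂rho = Real.exp (gam * z) * Real.Gamma (1 + z)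

/-- The odd part of `log Γ(1+z)` to fifth order. -/
def G_D2 : Prop := ∃ Z C : ℝ, ∀ z : ℝ, |z| ≤ 1 / 2 →
  |Real.log (Real.Gamma (1 + z)) - Real.log (Real.Gamma (1 - z)) + 2 * gam * z + Z * z ^ 3
    + 2 / 5 * zeta5 * z ^ 5| ≤ C * |z| ^ 6

/-- The moments. -/
def G_D3 : Prop := Integrable (fun a => Real.exp (|a| / 2)) rho ∧ ∫ a, a ∂rho = 0 ∧
  (∫ a, a ^ 5 ∂rho) - 10 * (∫ a, a ^ 2 ∂rho) * ∫ a, a ^ 3 ∂rho = -(3 / 4 * zeta5)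

/-! ### Bessel functions -/

/-- Gaussian superposition for `K`. -/
def G_KG : Prop := ∀ c t : ℝ, 0 < c → 0 < t →
  IntegrableOn (fun q => Real.exp (-(c ^ 2 * q + t ^ 2 / (4 * q))) / (2 * q)) (Ioi 0) ∧
  ∫ q in Ioi (0:ℝ), Real.exp (-(c ^ 2 * q + t ^ 2 / (4 * q))) / (2 * q) = Kb (c * t)

/-- Rotated integral for `K`. -/
def G_GL1 : Prop := ∀ A B : ℝ, 0 < A →
  ∫ u in Ioi (0:ℝ), Real.exp (-(A * Real.cosh u)) * Real.cos (B * Real.sinh u)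
    = Kb (Real.sqrt (A ^ 2 + B ^ 2))

/-- Shifted integral for `I`. -/
def G_GL2 : Prop := ∀ t u : ℝ,
  (1 / Real.pi) * (∫ φ in (0:ℝ)..Real.pi,
    Real.exp (t * Real.cosh u * Real.cos φ) * Real.cos (t * Real.sinh u * Real.sin φ)) = Ib t

/-- The addition theorem. -/
def G_GRAF : Prop := ∀ t c : ℝ, 0 < t → 1 < c →
  (1 / Real.pi) * (∫ φ in (0:ℝ)..Real.pi,
    Kb (t * Real.sqrt (1 + c ^ 2 - 2 * c * Real.cos φ))) = Ib t * Kb (c * t)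

/-- `K²` as a superposition of `K`. -/
def G_KSQ : Prop := ∀ t : ℝ, 0 < t →
  IntegrableOn (fun u => Kb (2 * t * Real.cosh (u / 2))) (Ioi 0) ∧
  ∫ u in Ioi (0:ℝ), Kb (2 * t * Real.cosh (u / 2)) = Kb t ^ 2

/-- Laplace transform of `I`. -/
def G_LAPI : Prop := ∀ A B : ℝ, 0 ≤ B → B < A →
  IntegrableOn (fun q => Real.exp (-(q * A)) * Ib (q * B)) (Ioi 0) ∧
  ∫ q in Ioi (0:ℝ), Real.exp (-(q * A)) * Ib (q * B) = 1 / Real.sqrt (A ^ 2 - B ^ 2)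

/-- The substitution `v = 2 + 2 cosh u`. -/
def G_CV4 : Prop := ∀ F : ℝ → ℝ, ∫ v in Ioi (4:ℝ), F v / Real.sqrt (v * (v - 4))
  = ∫ u in Ioi (0:ℝ), F (2 + 2 * Real.cosh u)

/-- `K` near zero. -/
def G_KAS : Prop := ∃ C : ℝ, ∀ t : ℝ, 0 < t → t ≤ 1 → |Kb t - Ld t| ≤ C * Real.sqrt t

/-! ### The weight `W` -/

/-- `I K²` as a superposition of Gaussians. -/
def G_REPG : Prop := ∀ t : ℝ, 0 < t →
  IntegrableOn (fun q => Real.exp (-(t ^ 2 / (4 * q))) * (Wf q / (2 * q))) (Ioi 0) ∧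
  ∫ q in Ioi (0:ℝ), Real.exp (-(t ^ 2 / (4 * q))) * (Wf q / (2 * q)) = Ib t * Kb t ^ 2

/-- `r` as a superposition of Gaussians. -/
def G_REPR : Prop := ∀ x : ℝ, 0 < x →
  IntegrableOn (fun q => Real.exp (-(x ^ 2 * q)) * Wf q) (Ioi 0) ∧
  ∫ q in Ioi (0:ℝ), Real.exp (-(x ^ 2 * q)) * Wf q = rr x

/-- `b` as a superposition. -/
def G_REPB : Prop := ∀ x : ℝ, 0 < x →
  IntegrableOn (fun q => (1 - Real.exp (-(x ^ 2 * q))) * (Wf q / (2 * q))) (Ioi 0) ∧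
  ∫ q in Ioi (0:ℝ), (1 - Real.exp (-(x ^ 2 * q))) * (Wf q / (2 * q)) = bb x

/-- Size of `W`. -/
def G_WAS : Prop := Measurable Wf ∧ (∀ q, 0 ≤ Wf q) ∧
  ∃ C : ℝ, (∀ q, 0 < q → q ≤ 1 → |Wf q + Real.log q + gam| ≤ C * Real.sqrt q) ∧
    ∀ q, 1 ≤ q → Wf q ≤ C / q

/-- Size of `N`. -/
def G_NAS : Prop :=
  (∀ z : ℝ, 0 < z → IntegrableOn (fun q => Wf q / (2 * q)) (Ioi z)) ∧ Measurable Nf ∧
  (∀ y, 0 ≤ Nf y) ∧ (∃ C : ℝ, ∀ y, |Nf y| ≤ C * Real.exp (y / 8)) ∧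
  ∃ C0 C : ℝ, ∀ y, |Nf y - (y ^ 2 + C0)| ≤ C * Real.exp (-(y / 8))

/-- `I K²` as an average of `N`. -/
def G_GMG : Prop := ∀ y : ℝ, ∫ a, Nf (y + a) ∂rho = Ib (tt y) * Kb (tt y) ^ 2

/-- `b` as an average of `N`. -/
def G_GMB : Prop := ∀ y : ℝ, ∫ a, Nf (y - a) ∂rho = bb (Real.exp y)

/-- The constant in the expansion of `N`. -/
def G_CST : Prop := ∀ C0 C : ℝ, (∀ y, |Nf y - (y ^ 2 + C0)| ≤ C * Real.exp (-(y / 8))) →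
  C0 = -∫ a, a ^ 2 ∂rho

/-! ### Substitutions -/

/-- The substitution `x = e^y`. -/
def G_CVB : Prop := ∀ (F : ℝ → ℝ) (Y : ℝ),
  ∫ x in (0:ℝ)..Real.exp Y, F x / x = ∫ y in Iic Y, F (Real.exp y)

/-- The substitution `t = tt y`. -/
def G_CVG : Prop := ∀ (F : ℝ → ℝ) (Y : ℝ),
  ∫ t in Ioi (tt Y), F t / t = ∫ y in Iic Y, F (tt y)

end EC237.PB
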