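import Pool.Agent.Helper6.EC_B.Basic

/-!
# MP_ecc237_nt, Part B: assembly
-/

open MeasureTheory Filter Topology Set

noncomputable section

namespace EC237.PB

/-- The abstract comparison theorem. -/
theorem comparison (t1 : G_T1) (t2 : G_T2) (t3 : G_T3) (ρ : Measure ℝ) (N : ℝ → ℝ)
    (h : Hyp ρ N) :
    Tendsto (fun Y => (∫ y in Iic Y, (∫ a, N (y - a) ∂ρ) ^ 2)
      - (∫ y in Iic Y, (∫ a, N (y + a) ∂ρ) ^ 2)) atTop
      (𝓝 (-(((∫ a, a ^ 5 ∂ρ) - 10 * (∫ a, a ^ 2 ∂ρ) * ∫ a, a ^ 3 ∂ρ) / 15))) := by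
  set M := ((∫ a, a ^ 5 ∂ρ) - 10 * (∫ a, a ^ 2 ∂ρ) * ∫ a, a ^ 3 ∂ρ) / 15 with hM
  obtain ⟨hi, he⟩ := t1 ρ N h
  have h3 := t3 ρ h.prob h.exp h.mean
  have h2 := t2 ρ N h
  have h4 : (fun Y => (∫ y in Iic Y, (∫ a, N (y - a) ∂ρ) ^ 2)
      - (∫ y in Iic Y, (∫ a, N (y + a) ∂ρ) ^ 2)) =
      fun Y => -((∫ p, (FY N Y p - FY (fun z => z ^ 2 - ∫ a, a ^ 2 ∂ρ) Y p) ∂(ρ.prod ρ)) + M) := by
    funext Y
    rw [he Y, integral_sub (hi Y) (h3 Y).1, (h3 Y).2]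
    ring
  rw [h4]
  have h5 := (h2.add_const M).neg
  rw [zero_add] at h5
  exact h5

theorem Ld_tt (y : ℝ) : Ld (tt y) = y := by
  unfold Ld tt
  rw [mul_div_cancel_left₀ _ (by norm_num : (2:ℝ) ≠ 0), Real.log_exp]
  ring

theorem tt_pos (y : ℝ) : 0 < tt y := by unfold tt; positivity

theorem tt_tendsto : Tendsto tt atTop (𝓝[>] 0) := by
  rw [tendsto_nhdsWithin_iff]
  constructor
  · unfold tt
    have h1 : Tendsto (fun y : ℝ => -gam - y) atTop atBot := by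
      simpa [sub_eq_add_neg] using tendsto_atBot_add_const_left atTop (-gam) tendsto_neg_atTop_atBot
    have h2 := (Real.tendsto_exp_atBot.comp h1).const_mul 2
    simpa using h2
  · filter_upwards with y using tt_pos y

/-- (S2) from the goals. -/
theorem s2_of (t1 : G_T1) (t2 : G_T2) (t3 : G_T3) (d3 : G_D3) (nas : G_NAS) (gmg : G_GMG)
    (gmb : G_GMB) (cst : G_CST) (cvb : G_CVB) (cvg : G_CVG) : S2 := by
  intro J hJ
  obtain ⟨_, hmeas, _, hb1, C0, C, hC⟩ := nas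
  obtain ⟨he, hm, hk⟩ := d3
  have hC0 := cst C0 C hC
  have hyp : Hyp rho Nf := by
    refine ⟨rho_prob, he, hm, hmeas, hb1, C, fun z => ?_⟩
    have := hC z
    rw [hC0] at this
    rw [sub_eq_add_neg]
    exact this
  have h1 := comparison t1 t2 t3 rho Nf hyp
  rw [hk] at h1
  have h2 : Tendsto (fun Y : ℝ => (∫ t in Ioi (tt Y), Ib t ^ 2 * Kb t ^ 4 / t) - Y ^ 5 / 5)
      atTop (𝓝 J) := by
    have := hJ.comp tt_tendsto
    refine this.congr fun Y => ?_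
    simp only [Function.comp]
    rw [Ld_tt]
  have h3 : ∀ Y : ℝ, (∫ t in Ioi (tt Y), Ib t ^ 2 * Kb t ^ 4 / t)
      = ∫ y in Iic Y, (∫ a, Nf (y + a) ∂rho) ^ 2 := by
    intro Y
    rw [cvg (fun t => Ib t ^ 2 * Kb t ^ 4) Y]
    congr 1
    funext y
    rw [gmg y]
    ring
  have h4 : ∀ Y : ℝ, (∫ x in (0:ℝ)..Real.exp Y, bb x ^ 2 / x)
      = ∫ y in Iic Y, (∫ a, Nf (y - a) ∂rho) ^ 2 := by
    intro Y
    rw [cvb (fun x => bb x ^ 2) Y]
    congr 1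
    funext y
    rw [gmb y]
  have h5 : Tendsto (fun Y : ℝ => (∫ x in (0:ℝ)..Real.exp Y, bb x ^ 2 / x) - Y ^ 5 / 5)
      atTop (𝓝 (J + zeta5 / 20)) := by
    have h6 := h1.add h2
    have h7 : -(-(3 / 4 * zeta5) / 15) + J = J + zeta5 / 20 := by ring
    rw [h7] at h6
    refine h6.congr fun Y => ?_
    rw [h3 Y, h4 Y]
    ring
  unfold IsJx
  have h8 := h5.comp Real.tendsto_log_atTop
  refine h8.congr' ?_
  filter_upwards [eventually_gt_atTop 0] with X hX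
  simp only [Function.comp]
  rw [Real.exp_log hX]

end EC237.PB
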